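import Mathlib

set_option autoImplicit false

namespace Pool.Agent.H.MP_1d41ea_nt
open Finset Filter Topology

open Classical in
lemma block {ι α κ : Type} [Fintype ι] [Fintype α] [DecidableEq ι] [Nonempty α]
    (D : κ → Finset ι) (g : ι → α) (t : ℕ) (J : Finset κ) (ht : ∀ j ∈ J, (D j).card ≤ t)
    (hd : ∀ j ∈ J, ∀ j' ∈ J, j ≠ j' → Disjoint (D j) (D j')) :
    ((univ.filter (fun f : ι → α => ∀ j ∈ J, ∃ i ∈ D j, f i ≠ g i)).card : ℝ) ≤
      (1 - 1 / (Fintype.card α : ℝ) ^ t) ^ J.card * (Fintype.card α : ℝ) ^ Fintype.card ι := by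
  have hb : (1 : ℝ) ≤ Fintype.card α := by exact_mod_cast Fintype.card_pos
  have hbt : (1 : ℝ) ≤ (Fintype.card α : ℝ) ^ t := one_le_pow₀ hb
  have hq : (0 : ℝ) ≤ 1 - 1 / (Fintype.card α : ℝ) ^ t := by
    rw [sub_nonneg, div_le_one (by linarith)]; exact hbt
  induction J using Finset.induction_on with
  | empty => simp
  | insert j J hj ih =>
    have ih' := ih (fun x hx => ht x (mem_insert_of_mem hx))
      (fun x hx y hy => hd x (mem_insert_of_mem hx) y (mem_insert_of_mem hy))
    set S := univ.filter (fun f : ι → α => ∀ j ∈ J, ∃ i ∈ D j, f i ≠ g i) with hS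
    set T := S.filter (fun f => ∀ i ∈ D j, f i = g i) with hT
    have h1 : univ.filter (fun f : ι → α => ∀ j' ∈ insert j J, ∃ i ∈ D j', f i ≠ g i) =
        S.filter (fun f => ¬ ∀ i ∈ D j, f i = g i) := by
      ext f
      simp only [hS, mem_filter, mem_univ, true_and, forall_mem_insert, not_forall]
      constructor
      · rintro ⟨⟨i, hi, h⟩, h2⟩
        exact ⟨h2, i, hi, h⟩
      · rintro ⟨h2, i, hi, h⟩
        exact ⟨⟨i, hi, h⟩, h2⟩
    have h2 := card_filter_add_card_filter_not (s := S) (fun f => ∀ i ∈ D j, f i = g i)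
    have h3 : S.card ≤ (T ×ˢ (univ : Finset (D j → α))).card := by
      apply card_le_card_of_injOn
        (fun f => (fun i => if i ∈ D j then g i else f i, fun i : D j => f i))
      · intro f hf
        simp only [hT, hS, coe_filter, mem_univ, true_and, Set.mem_setOf_eq, coe_product,
          Set.mem_prod, mem_filter, coe_univ, Set.mem_univ, and_true] at hf ⊢
        refine ⟨fun j' hj' => ?_, fun i hi => by simp [hi]⟩
        obtain ⟨i, hi, h⟩ := hf j' hj'
        have : i ∉ D j := fun h' => disjoint_left.mp (hd j (mem_insert_self _ _) j'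
          (mem_insert_of_mem hj') (fun e => hj (e ▸ hj'))) h' hi
        exact ⟨i, hi, by simpa [this] using h⟩
      · intro f _ f' _ h
        simp only [Prod.mk.injEq] at h
        funext i
        by_cases hi : i ∈ D j
        · exact congrFun h.2 ⟨i, hi⟩
        · simpa [hi] using congrFun h.1 i
    rw [card_product, card_univ, Fintype.card_fun, Fintype.card_coe] at h3
    have h4 : (S.card : ℝ) ≤ T.card * (Fintype.card α : ℝ) ^ t := by
      have h5 : (S.card : ℝ) ≤ T.card * (Fintype.card α : ℝ) ^ (D j).card := by exact_mod_cast h3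
      exact h5.trans (mul_le_mul_of_nonneg_left
        (pow_le_pow_right₀ hb (ht j (mem_insert_self _ _))) (by positivity))
    rw [h1, card_insert_of_notMem hj, pow_succ]
    have h6 : ((S.filter (fun f => ¬ ∀ i ∈ D j, f i = g i)).card : ℝ) = S.card - T.card := by
      rw [← h2]; push_cast; ring
    rw [h6]
    have h7 : (S.card : ℝ) - T.card ≤ S.card * (1 - 1 / (Fintype.card α : ℝ) ^ t) := by
      have : (S.card : ℝ) / (Fintype.card α : ℝ) ^ t ≤ T.card := by
        rw [div_le_iff₀ (by linarith)]; exact h4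
      rw [mul_sub, mul_one_div]; linarith
    calc (S.card : ℝ) - T.card ≤ S.card * (1 - 1 / (Fintype.card α : ℝ) ^ t) := h7
      _ ≤ _ := by
        rw [mul_right_comm]
        exact mul_le_mul_of_nonneg_right ih' hq

lemma greedy (A : Finset ℕ) (D : ℕ → Finset ℕ) (T : ℕ) (hT : 0 < T)
    (h : ∀ x, ∃ C : Finset ℕ, C.card ≤ T ∧ x ∈ C ∧ ∀ y, ¬ Disjoint (D x) (D y) → y ∈ C) :
    ∀ s, T * s ≤ A.card → ∃ X ⊆ A, X.card = s ∧
      ∀ x ∈ X, ∀ y ∈ X, x ≠ y → Disjoint (D x) (D y) := by
  choose C hC1 hC2 hC3 using h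
  intro s
  induction s with
  | zero => intro _; exact ⟨∅, by simp, rfl, by simp⟩
  | succ s ih =>
    intro hs
    rw [Nat.mul_succ] at hs
    obtain ⟨X, h1, h2, h3⟩ := ih (by omega)
    have h4 : (X.biUnion C).card < A.card := by
      have := card_biUnion_le_card_mul X C T (fun x _ => hC1 x)
      rw [h2, mul_comm] at this
      omega
    obtain ⟨a, ha, ha'⟩ := exists_mem_notMem_of_card_lt_card h4
    simp only [mem_biUnion, not_exists, not_and] at ha'
    have haX : a ∉ X := fun hx => ha' a hx (hC2 a)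
    have hd : ∀ x ∈ X, Disjoint (D x) (D a) := fun x hx => by
      by_contra hc
      exact ha' x hx (hC3 x a hc)
    refine ⟨insert a X, insert_subset ha h1, by rw [card_insert_of_notMem haX, h2], ?_⟩
    intro x hx y hy hxy
    rcases mem_insert.mp hx with hx' | hx' <;> rcases mem_insert.mp hy with hy' | hy'
    · exact absurd (hx'.trans hy'.symm) hxy
    · rw [hx']; exact (hd y hy').symm
    · rw [hy']; exact hd x hx'
    · exact h3 x hx' y hy' hxy

lemma lim0 (r L : ℕ) (hL : 0 < L) (c : ℝ) (h0 : 0 ≤ c) (h1 : c < 1) :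
    Tendsto (fun k : ℕ => (k : ℝ) ^ r * c ^ (k / L)) atTop (𝓝 0) := by
  have h2 : Tendsto (fun s : ℕ => (s : ℝ) ^ r * c ^ s) atTop (𝓝 0) :=
    tendsto_pow_const_mul_const_pow_of_abs_lt_one r (by rwa [abs_of_nonneg h0])
  have h3 : Tendsto (fun k : ℕ => k / L) atTop atTop := Nat.tendsto_div_const_atTop hL.ne'
  have h4 := (h2.comp h3).const_mul (((2 * L : ℕ) : ℝ) ^ r)
  rw [mul_zero] at h4
  refine squeeze_zero' (Eventually.of_forall fun k => by positivity) ?_ h4
  filter_upwards [h3.eventually_ge_atTop 1] with k hk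
  simp only [Function.comp]
  rw [← mul_assoc, ← mul_pow]
  have h5 : k ≤ 2 * L * (k / L) := by
    have := Nat.lt_mul_div_succ k hL
    nlinarith
  have h6 : (k : ℝ) ≤ ((2 * L : ℕ) : ℝ) * ((k / L : ℕ) : ℝ) := by exact_mod_cast h5
  gcongr

lemma small_card (k M : ℕ) (δ : ℝ) (hδ : 0 < δ) (hM : 1 ≤ δ * (1 + δ) ^ M) :
    (((range k).powerset.filter (fun A => M * A.card ≤ k)).card : ℝ) ≤ (1 + δ) ^ (2 * k) := by
  have h1 : ∑ A ∈ (range k).powerset, δ ^ A.card = (1 + δ) ^ k := by
    have := Finset.prod_one_add (s := range k) (f := fun _ => δ)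
    simpa using this.symm
  calc (((range k).powerset.filter (fun A => M * A.card ≤ k)).card : ℝ)
      = ∑ A ∈ (range k).powerset.filter (fun A => M * A.card ≤ k), (1 : ℝ) := by simp
    _ ≤ ∑ A ∈ (range k).powerset.filter (fun A => M * A.card ≤ k), δ ^ A.card * (1 + δ) ^ k := by
      apply sum_le_sum
      intro A hA
      have h2 := (mem_filter.mp hA).2
      calc (1 : ℝ) ≤ (δ * (1 + δ) ^ M) ^ A.card := one_le_pow₀ hM
        _ = δ ^ A.card * (1 + δ) ^ (M * A.card) := by rw [mul_pow, pow_mul]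
        _ ≤ _ := mul_le_mul_of_nonneg_left (pow_le_pow_right₀ (by linarith) h2) (by positivity)
    _ ≤ ∑ A ∈ (range k).powerset, δ ^ A.card * (1 + δ) ^ k :=
      sum_le_sum_of_subset_of_nonneg (filter_subset _ _) (fun _ _ _ => by positivity)
    _ = (1 + δ) ^ (2 * k) := by rw [← sum_mul, h1, two_mul, pow_add]

lemma choose_bd (k s L : ℕ) (h : k ≤ L * s) : (k.choose s : ℝ) ≤ (L * Real.exp 1) ^ s := by
  have h1 : (k.choose s : ℝ) ≤ (k : ℝ) ^ s / (s.factorial : ℝ) := Nat.choose_le_pow_div s k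
  have h2 : (s : ℝ) ^ s / (s.factorial : ℝ) ≤ Real.exp s :=
    Real.pow_div_factorial_le_exp _ (by positivity) s
  have h3 : (k : ℝ) ≤ L * s := by exact_mod_cast h
  calc (k.choose s : ℝ) ≤ (k : ℝ) ^ s / (s.factorial : ℝ) := h1
    _ ≤ ((L : ℝ) * s) ^ s / (s.factorial : ℝ) := by gcongr
    _ = (L : ℝ) ^ s * ((s : ℝ) ^ s / (s.factorial : ℝ)) := by rw [mul_pow]; ring
    _ ≤ (L : ℝ) ^ s * Real.exp s := by gcongr
    _ = _ := by rw [mul_pow, ← Real.exp_nat_mul, mul_one]

lemma card_bi {β γ : Type} [DecidableEq γ] (P : Finset β) (F : β → Finset γ) (c : ℝ)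
    (h : ∀ p ∈ P, ((F p).card : ℝ) ≤ c) : ((P.biUnion F).card : ℝ) ≤ P.card * c := by
  have h1 : ((P.biUnion F).card : ℝ) ≤ ∑ p ∈ P, ((F p).card : ℝ) := by
    exact_mod_cast card_biUnion_le
  exact h1.trans (by simpa using sum_le_card_nsmul P _ c h)

end Pool.Agent.H.MP_1d41ea_nt
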