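import Pool.Agent.H.MP_1d41ea_nt.A

set_option autoImplicit false

namespace Pool.Agent.H.MP_1d41ea_nt
open Finset Filter Topology

def N {k b : ℕ} (f : Fin k → Fin b) (m : ℕ) : Prop := ∃ i : Fin k, (i : ℕ) = m ∧ (f i : ℕ) ≠ 0

def Dec {k b : ℕ} (f : Fin k → Fin b) (A B : Finset ℕ) : Prop :=
  ∀ m, N f m ↔ ∃ a ∈ A, ∃ c ∈ B, a + c = m

def Red {k b : ℕ} (f : Fin k → Fin b) : Prop :=
  ∃ A B : Finset ℕ, 2 ≤ A.card ∧ 2 ≤ B.card ∧ Dec f A B

lemma Dec.symm {k b : ℕ} {f : Fin k → Fin b} {A B : Finset ℕ} (h : Dec f A B) : Dec f B A := by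
  intro m
  rw [h m]
  constructor <;> rintro ⟨a, ha, c, hc, e⟩ <;> exact ⟨c, hc, a, ha, by omega⟩

lemma Dec.sub {k b : ℕ} {f : Fin k → Fin b} {A B : Finset ℕ} (h : Dec f A B) (hB : 2 ≤ B.card) :
    A ⊆ range k := by
  intro a ha
  obtain ⟨c, hc⟩ := card_pos.mp (by omega : 0 < B.card)
  obtain ⟨i, hi, -⟩ := (h (a + c)).mpr ⟨a, ha, c, hc, rfl⟩
  have := i.2
  rw [mem_range]; omega

open Classical in
lemma single {k b : ℕ} (hb : 2 ≤ b) (S : Finset (Fin k)) (g : Fin k → Fin b) :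
    ((univ.filter (fun f : Fin k → Fin b => ∀ i ∈ S, f i ≠ g i)).card : ℝ) ≤
      (1 - 1 / (b : ℝ)) ^ S.card * (b : ℝ) ^ k := by
  haveI : Nonempty (Fin b) := ⟨⟨0, by omega⟩⟩
  have := block (fun i : Fin k => {i}) g 1 S (by simp) (by simp)
  simpa using this

open Classical in
lemma case1 {k b : ℕ} (hb : 2 ≤ b) (M : ℕ) (δ : ℝ) (hδ : 0 < δ) (hM : 1 ≤ δ * (1 + δ) ^ M) :
    ((univ.filter (fun f : Fin k → Fin b => ∃ A B, A ⊆ range k ∧ B ⊆ range k ∧
      M * A.card ≤ k ∧ M * B.card ≤ k ∧ Dec f A B)).card : ℝ) ≤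
      ((1 + δ) ^ 4 * (1 - 1 / (b : ℝ))) ^ k * (b : ℝ) ^ k := by
  set P := (range k).powerset.filter (fun A => M * A.card ≤ k) with hP
  have hPc : (P.card : ℝ) ≤ (1 + δ) ^ (2 * k) := small_card k M δ hδ hM
  have hq : (0 : ℝ) ≤ 1 - 1 / (b : ℝ) := by
    rw [sub_nonneg, div_le_one (by positivity)]; exact_mod_cast (by omega : 1 ≤ b)
  obtain ⟨g, hg⟩ : ∃ g : Finset ℕ × Finset ℕ → Fin k → Fin b, ∀ z i, g z i =
      if ∃ a ∈ z.1, ∃ c ∈ z.2, a + c = (i : ℕ) then ⟨0, by omega⟩ else ⟨1, by omega⟩ :=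
    ⟨_, fun _ _ => rfl⟩
  set F : Finset ℕ × Finset ℕ → Finset (Fin k → Fin b) := fun z =>
    univ.filter (fun f : Fin k → Fin b => ∀ i ∈ (univ : Finset (Fin k)), f i ≠ g z i) with hF
  have h1 : univ.filter (fun f : Fin k → Fin b => ∃ A B, A ⊆ range k ∧ B ⊆ range k ∧
      M * A.card ≤ k ∧ M * B.card ≤ k ∧ Dec f A B) ⊆ (P ×ˢ P).biUnion F := by
    intro f hf
    simp only [mem_filter, mem_univ, true_and] at hf
    obtain ⟨A, B, h1, h2, h3, h4, h5⟩ := hf
    refine mem_biUnion.mpr ⟨(A, B), mem_product.mpr ⟨mem_filter.mpr ⟨mem_powerset.mpr h1, h3⟩,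
      mem_filter.mpr ⟨mem_powerset.mpr h2, h4⟩⟩, mem_filter.mpr ⟨mem_univ _, fun i _ => ?_⟩⟩
    rw [hg]
    split_ifs with h
    · obtain ⟨j, hj, hj'⟩ := (h5 i).mpr h
      have : j = i := Fin.ext hj
      rw [this] at hj'
      exact fun e => hj' (by rw [e])
    · exact fun e => h ((h5 i).mp ⟨i, rfl, by rw [e]; simp⟩)
  have h2 := card_bi (P ×ˢ P) F ((1 - 1 / (b : ℝ)) ^ (univ : Finset (Fin k)).card * (b : ℝ) ^ k)
    (fun z _ => by convert single hb univ (g z))
  rw [card_product, card_univ, Fintype.card_fin] at h2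
  refine le_trans (by exact_mod_cast card_le_card h1) (h2.trans ?_)
  push_cast
  calc (P.card : ℝ) * P.card * ((1 - 1 / (b : ℝ)) ^ k * (b : ℝ) ^ k)
      ≤ (1 + δ) ^ (2 * k) * (1 + δ) ^ (2 * k) * ((1 - 1 / (b : ℝ)) ^ k * (b : ℝ) ^ k) := by gcongr
    _ = _ := by rw [mul_pow, ← pow_mul]; ring

open Classical in
lemma case2 {k b : ℕ} (hb : 2 ≤ b) (M r : ℕ) (hr : 0 < r) (hk : M * r ^ 2 ≤ k) (hM : 0 < M)
    (h : (2 * (M * r ^ 2) : ℕ) * Real.exp 1 * (1 - 1 / (b : ℝ)) ^ r ≤ 1 / 2) :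
    ((univ.filter (fun f : Fin k → Fin b => ∃ A B, A ⊆ range k ∧ B ⊆ range k ∧
      k < M * A.card ∧ r ≤ B.card ∧ Dec f A B)).card : ℝ) ≤
      (k : ℝ) ^ r * (1 / 2) ^ (k / (M * r ^ 2)) * (b : ℝ) ^ k := by
  set s := k / (M * r ^ 2) with hs
  have hL : 0 < M * r ^ 2 := by positivity
  have hq : (0 : ℝ) ≤ 1 - 1 / (b : ℝ) := by
    rw [sub_nonneg, div_le_one (by positivity)]; exact_mod_cast (by omega : 1 ≤ b)
  have hq1 : 1 - 1 / (b : ℝ) ≤ 1 := by
    have : (0 : ℝ) ≤ 1 / (b : ℝ) := by positivity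
    linarith
  set F : Finset ℕ × Finset ℕ → Finset (Fin k → Fin b) := fun z =>
    univ.filter (fun f : Fin k → Fin b => ∃ S : Finset (Fin k), S.card = r * s ∧
      (∀ i, i ∈ S ↔ ∃ x ∈ z.2, ∃ c ∈ z.1, x + c = (i : ℕ)) ∧ ∀ i ∈ S, f i ≠ ⟨0, by omega⟩) with hF
  have h1 : univ.filter (fun f : Fin k → Fin b => ∃ A B, A ⊆ range k ∧ B ⊆ range k ∧
      k < M * A.card ∧ r ≤ B.card ∧ Dec f A B) ⊆
      (powersetCard r (range k) ×ˢ powersetCard s (range k)).biUnion F := by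
    intro f hf
    simp only [mem_filter, mem_univ, true_and] at hf
    obtain ⟨A, B, h1, h2, h3, h4, h5⟩ := hf
    obtain ⟨B0, hB0, hB0c⟩ := exists_subset_card_eq h4
    obtain ⟨X, hX1, hX2, hX3⟩ := greedy A (fun x => B0.image (fun c => x + c)) (r ^ 2)
      (by positivity) (fun x => by
        refine ⟨(B0 ×ˢ B0).image (fun z => x + z.1 - z.2), ?_, ?_, ?_⟩
        · refine card_image_le.trans ?_
          rw [card_product, hB0c, sq]
        · obtain ⟨c, hc⟩ := card_pos.mp (by omega : 0 < B0.card)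
          exact mem_image.mpr ⟨(c, c), mem_product.mpr ⟨hc, hc⟩, by simp⟩
        · intro y hy
          obtain ⟨w, hw1, hw2⟩ := not_disjoint_iff.mp hy
          obtain ⟨c, hc, e⟩ := mem_image.mp hw1
          obtain ⟨c', hc', e'⟩ := mem_image.mp hw2
          exact mem_image.mpr ⟨(c, c'), mem_product.mpr ⟨hc, hc'⟩, by simp only; omega⟩) s (by
        have h6 : M * r ^ 2 * s ≤ k := Nat.mul_div_le k _
        have h7 : M * (r ^ 2 * s) < M * A.card := by rw [← mul_assoc]; omega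
        exact (Nat.lt_of_mul_lt_mul_left h7).le)
    simp only [mem_biUnion, mem_product, mem_powersetCard]
    refine ⟨(B0, X), ⟨⟨hB0.trans h2, hB0c⟩, hX1.trans h1, hX2⟩, ?_⟩
    simp only [hF, mem_filter, mem_univ, true_and]
    have hcard : (X.biUnion (fun x => B0.image (fun c => x + c))).card = r * s := by
      rw [card_biUnion hX3, sum_congr rfl (fun x _ => card_image_of_injective B0
        (add_right_injective x)), sum_const, hB0c, hX2, smul_eq_mul, mul_comm]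
    refine ⟨univ.filter (fun i : Fin k => ∃ x ∈ X, ∃ c ∈ B0, x + c = (i : ℕ)), ?_, by simp, ?_⟩
    · rw [← hcard]
      apply card_bij (fun (i : Fin k) _ => (i : ℕ))
      · intro i hi
        simpa using hi
      · intro i _ j _ e
        exact Fin.ext e
      · intro m hm
        simp only [mem_biUnion, mem_image] at hm
        obtain ⟨x, hx, c, hc, e⟩ := hm
        obtain ⟨i, hi, -⟩ := (h5 m).mpr ⟨x, hX1 hx, c, hB0 hc, e⟩
        exact ⟨i, mem_filter.mpr ⟨mem_univ _, x, hx, c, hc, by omega⟩, hi⟩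
    · intro i hi
      obtain ⟨x, hx, c, hc, e⟩ := (mem_filter.mp hi).2
      obtain ⟨j, hj, hj'⟩ := (h5 i).mpr ⟨x, hX1 hx, c, hB0 hc, e⟩
      have : j = i := Fin.ext hj
      rw [this] at hj'
      exact fun e => hj' (by rw [e])
  have h2 := card_bi (powersetCard r (range k) ×ˢ powersetCard s (range k)) F
    ((1 - 1 / (b : ℝ)) ^ (r * s) * (b : ℝ) ^ k) (fun z _ => by
      rcases (F z).eq_empty_or_nonempty with h0 | ⟨f, hf⟩
      · rw [h0]; simp only [card_empty, Nat.cast_zero]; positivity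
      · simp only [hF, mem_filter, mem_univ, true_and] at hf
        obtain ⟨S, hS1, hS2, -⟩ := hf
        rw [← hS1]
        refine le_trans ?_ (single hb S (fun _ => ⟨0, by omega⟩))
        have : F z ⊆ univ.filter (fun f : Fin k → Fin b => ∀ i ∈ S, f i ≠ ⟨0, by omega⟩) := by
          intro f' hf'
          simp only [hF, mem_filter, mem_univ, true_and] at hf' ⊢
          obtain ⟨S', -, h3, h4⟩ := hf'
          exact fun i hi => h4 i ((h3 i).mpr ((hS2 i).mp hi))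
        exact_mod_cast card_le_card this)
  rw [card_product, card_powersetCard, card_powersetCard, card_range] at h2
  refine le_trans (by exact_mod_cast card_le_card h1) (h2.trans ?_)
  have h3 : (k.choose r : ℝ) ≤ (k : ℝ) ^ r := by exact_mod_cast Nat.choose_le_pow k r
  have h4 := choose_bd k s (2 * (M * r ^ 2)) (by
    have h5 := Nat.lt_mul_div_succ k hL
    have h6 : 1 ≤ s := (Nat.one_le_div_iff hL).mpr hk
    rw [← hs] at h5
    nlinarith)
  push_cast
  calc (k.choose r : ℝ) * (k.choose s : ℝ) * ((1 - 1 / (b : ℝ)) ^ (r * s) * (b : ℝ) ^ k)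
      ≤ (k : ℝ) ^ r * (((2 * (M * r ^ 2) : ℕ) : ℝ) * Real.exp 1) ^ s *
        ((1 - 1 / (b : ℝ)) ^ (r * s) * (b : ℝ) ^ k) := by gcongr
    _ = (k : ℝ) ^ r * (((2 * (M * r ^ 2) : ℕ) : ℝ) * Real.exp 1 * (1 - 1 / (b : ℝ)) ^ r) ^ s *
        (b : ℝ) ^ k := by rw [pow_mul, mul_pow _ ((1 - 1 / (b : ℝ)) ^ r)]; ring
    _ ≤ _ := by gcongr

open Classical in
lemma case3 {k b : ℕ} (hb : 2 ≤ b) (r : ℕ) (hr : 0 < r) (hk : 1 ≤ k) :
    ((univ.filter (fun f : Fin k → Fin b => ∃ A B, B ⊆ range k ∧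
      2 ≤ B.card ∧ B.card ≤ r ∧ Dec f A B)).card : ℝ) ≤
      (r + 1) * ((k : ℝ) ^ r * (1 - 1 / (b : ℝ) ^ (r ^ 2)) ^ (k / r ^ 4)) * (b : ℝ) ^ k := by
  haveI : Nonempty (Fin b) := ⟨⟨0, by omega⟩⟩
  set P := (range (r + 1)).biUnion (fun j => powersetCard j (range k)) with hP
  have hk' : (1 : ℝ) ≤ k := by exact_mod_cast hk
  have hPc : (P.card : ℝ) ≤ (r + 1) * (k : ℝ) ^ r := by
    have := card_bi (range (r + 1)) (fun j => powersetCard j (range k)) ((k : ℝ) ^ r)
      (fun j hj => by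
        rw [card_powersetCard, card_range]
        have h3 : (k.choose j : ℝ) ≤ (k : ℝ) ^ j := by exact_mod_cast Nat.choose_le_pow k j
        exact h3.trans (pow_le_pow_right₀ hk' (by rw [mem_range] at hj; omega)))
    simpa using this
  have hq : (0 : ℝ) ≤ 1 - 1 / (b : ℝ) ^ (r ^ 2) := by
    rw [sub_nonneg, div_le_one (by positivity)]
    exact one_le_pow₀ (by exact_mod_cast (by omega : 1 ≤ b))
  set F : Finset ℕ → Finset (Fin k → Fin b) := fun B =>
    univ.filter (fun f : Fin k → Fin b => 2 ≤ B.card ∧ B.card ≤ r ∧ ∃ A, Dec f A B) with hF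
  have h1 : univ.filter (fun f : Fin k → Fin b => ∃ A B, B ⊆ range k ∧
      2 ≤ B.card ∧ B.card ≤ r ∧ Dec f A B) ⊆ P.biUnion F := by
    intro f hf
    simp only [mem_filter, mem_univ, true_and] at hf
    obtain ⟨A, B, h1, h2, h3, h4⟩ := hf
    simp only [hP, hF, mem_biUnion, mem_powersetCard, mem_range, mem_filter, mem_univ, true_and]
    exact ⟨B, ⟨B.card, by omega, h1, rfl⟩, h2, h3, A, h4⟩
  have h2 := card_bi P F ((1 - 1 / (b : ℝ) ^ (r ^ 2)) ^ (k / r ^ 4) * (b : ℝ) ^ k) (fun B _ => by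
    by_cases hB : 2 ≤ B.card ∧ B.card ≤ r
    swap
    · have : F B = ∅ := by
        simp only [hF, filter_eq_empty_iff]
        exact fun f _ h => hB ⟨h.1, h.2.1⟩
      rw [this]; simp only [card_empty, Nat.cast_zero]; positivity
    obtain ⟨c0, hc0⟩ := card_pos.mp (by omega : 0 < B.card)
    set D : ℕ → Finset ℕ := fun x =>
      (range k).filter (fun y => ∃ c ∈ B, ∃ c' ∈ B, y + c = x + c') with hD
    obtain ⟨X, hX1, hX2, hX3⟩ := greedy (range k) D (r ^ 4) (by positivity) (fun x => by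
        refine ⟨((B ×ˢ B) ×ˢ (B ×ˢ B)).image (fun z => x + z.1.1 + z.1.2 - z.2.1 - z.2.2),
          ?_, ?_, ?_⟩
        · refine card_image_le.trans ?_
          rw [card_product, card_product]
          calc B.card * B.card * (B.card * B.card) = B.card ^ 4 := by ring
            _ ≤ r ^ 4 := Nat.pow_le_pow_left hB.2 4
        · exact mem_image.mpr ⟨((c0, c0), (c0, c0)), by simp [hc0], by simp only; omega⟩
        · intro y hy
          obtain ⟨w, hw1, hw2⟩ := not_disjoint_iff.mp hy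
          obtain ⟨c1, hc1, c2, hc2, e⟩ := (mem_filter.mp hw1).2
          obtain ⟨c3, hc3, c4, hc4, e'⟩ := (mem_filter.mp hw2).2
          exact mem_image.mpr ⟨((c2, c3), (c1, c4)), by simp [hc1, hc2, hc3, hc4],
            by simp only; omega⟩) (k / r ^ 4) (by rw [card_range]; exact Nat.mul_div_le k _)
    have h3 := block (fun x : ℕ => univ.filter (fun i : Fin k => (i : ℕ) ∈ D x))
      (fun i : Fin k => if (i : ℕ) ∈ X then (⟨1, by omega⟩ : Fin b) else ⟨0, by omega⟩) (r ^ 2) X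
      (fun x _ => by
        have h4 : (univ.filter (fun i : Fin k => (i : ℕ) ∈ D x)).card ≤
            ((B ×ˢ B).image (fun z => x + z.2 - z.1)).card := by
          apply card_le_card_of_injOn (fun i : Fin k => (i : ℕ))
          · intro i hi
            simp only [hD, coe_filter, mem_univ, true_and, Set.mem_setOf_eq, mem_filter] at hi
            obtain ⟨-, c, hc, c', hc', e⟩ := hi
            exact mem_coe.mpr (mem_image.mpr ⟨(c, c'), by simp [hc, hc'], by simp only; omega⟩)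
          · intro i _ j _ e
            exact Fin.ext e
        refine h4.trans (card_image_le.trans ?_)
        rw [card_product, ← sq]
        exact Nat.pow_le_pow_left hB.2 2)
      (fun x hx y hy hxy => by
        rw [disjoint_left]
        intro i hi hi'
        exact disjoint_left.mp (hX3 x hx y hy hxy) (mem_filter.mp hi).2 (mem_filter.mp hi').2)
    rw [Fintype.card_fin, Fintype.card_fin, hX2] at h3
    refine le_trans ?_ h3
    have h5 : F B ⊆ univ.filter (fun f : Fin k → Fin b => ∀ x ∈ X,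
        ∃ i ∈ univ.filter (fun i : Fin k => (i : ℕ) ∈ D x),
        f i ≠ if (i : ℕ) ∈ X then (⟨1, by omega⟩ : Fin b) else ⟨0, by omega⟩) := by
      intro f hf
      simp only [hF, mem_filter, mem_univ, true_and] at hf ⊢
      obtain ⟨-, -, A, hA⟩ := hf
      intro x hx
      by_contra hc
      push Not at hc
      have hself : ∀ y, y < k → y ∈ D y := fun y hy =>
        mem_filter.mpr ⟨mem_range.mpr hy, c0, hc0, c0, hc0, rfl⟩
      have hxk : x < k := mem_range.mp (hX1 hx)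
      have h6 := hc ⟨x, hxk⟩ (hself x hxk)
      rw [if_pos hx] at h6
      obtain ⟨a, ha, c, hc1, e⟩ := (hA x).mp ⟨⟨x, hxk⟩, rfl, by rw [h6]; simp⟩
      obtain ⟨c', hc2, hne⟩ := exists_mem_ne (by omega : 1 < B.card) c
      obtain ⟨i, hi, hi'⟩ := (hA (a + c')).mpr ⟨a, ha, c', hc2, rfl⟩
      have h7 : (i : ℕ) ∈ D x := mem_filter.mpr ⟨mem_range.mpr i.2, c, hc1, c', hc2, by omega⟩
      have h8 : (i : ℕ) ∉ X := fun h =>
        disjoint_left.mp (hX3 x hx i h (by omega)) h7 (hself i i.2)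
      have h9 := hc i h7
      rw [if_neg h8] at h9
      exact hi' (by rw [h9])
    exact_mod_cast card_le_card h5)
  refine le_trans (by exact_mod_cast card_le_card h1) (h2.trans ?_)
  calc (P.card : ℝ) * ((1 - 1 / (b : ℝ) ^ (r ^ 2)) ^ (k / r ^ 4) * (b : ℝ) ^ k)
      ≤ (r + 1) * (k : ℝ) ^ r * ((1 - 1 / (b : ℝ) ^ (r ^ 2)) ^ (k / r ^ 4) * (b : ℝ) ^ k) := by
        gcongr
    _ = _ := by ring

end Pool.Agent.H.MP_1d41ea_nt
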