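import Pool.Agent.H.MP_1d41ea_nt.B

set_option autoImplicit false

namespace Pool.Agent.H.MP_1d41ea_nt
open Finset Filter Topology

open Classical in
noncomputable def bad (b k : ℕ) : ℕ :=
  (univ.filter (fun f : Fin k → Fin b => Red f ∨ ∀ i, (f i : ℕ) ≠ b - 1)).card

open Classical in
lemma bad_lim {b : ℕ} (hb : 2 ≤ b) :
    Tendsto (fun k : ℕ => (bad b k : ℝ) / (b : ℝ) ^ k) atTop (𝓝 0) := by
  have hb' : (2 : ℝ) ≤ b := by exact_mod_cast hb
  have hq : (0 : ℝ) ≤ 1 - 1 / (b : ℝ) := by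
    rw [sub_nonneg, div_le_one (by positivity)]; linarith
  have hq1 : 1 - 1 / (b : ℝ) < 1 := by
    have : (0 : ℝ) < 1 / (b : ℝ) := by positivity
    linarith
  obtain ⟨δ, hδ1, hδ⟩ : ∃ δ : ℝ, (1 + δ) ^ 4 * (1 - 1 / (b : ℝ)) < 1 ∧ 0 < δ := by
    have h1 : ContinuousAt (fun δ : ℝ => (1 + δ) ^ 4 * (1 - 1 / (b : ℝ))) 0 := by fun_prop
    have h2 := h1.eventually (gt_mem_nhds (a := 1) (by simpa using hq1))
    exact ((h2.filter_mono nhdsWithin_le_nhds).and
      (self_mem_nhdsWithin (s := Set.Ioi (0 : ℝ)) (a := 0))).exists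
  obtain ⟨M, hM0, hM⟩ : ∃ M : ℕ, 0 < M ∧ 1 ≤ δ * (1 + δ) ^ M := by
    obtain ⟨M, hM⟩ := pow_unbounded_of_one_lt (1 / δ) (by linarith : 1 < 1 + δ)
    refine ⟨M + 1, by omega, ?_⟩
    rw [div_lt_iff₀ hδ] at hM
    have h3 : (1 + δ) ^ M ≤ (1 + δ) ^ (M + 1) := pow_le_pow_right₀ (by linarith) (by omega)
    nlinarith
  obtain ⟨r, hr1, hr⟩ : ∃ r : ℕ, (2 * (M * r ^ 2) : ℕ) * Real.exp 1 * (1 - 1 / (b : ℝ)) ^ r ≤ 1 / 2
      ∧ 0 < r := by
    have h2 : Tendsto (fun s : ℕ => (s : ℝ) ^ 2 * (1 - 1 / (b : ℝ)) ^ s) atTop (𝓝 0) :=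
      tendsto_pow_const_mul_const_pow_of_abs_lt_one 2 (by rwa [abs_of_nonneg hq])
    have h3 := h2.const_mul (2 * M * Real.exp 1)
    rw [mul_zero] at h3
    obtain ⟨r, h4, h5⟩ := ((h3.eventually (gt_mem_nhds (a := 1 / 2) (by norm_num))).and
      (eventually_gt_atTop 0)).exists
    refine ⟨r, ?_, h5⟩
    push_cast
    linarith
  have hq2 : (0 : ℝ) ≤ 1 - 1 / (b : ℝ) ^ (r ^ 2) := by
    rw [sub_nonneg, div_le_one (by positivity)]
    exact one_le_pow₀ (by linarith)
  have hq3 : 1 - 1 / (b : ℝ) ^ (r ^ 2) < 1 := by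
    have : (0 : ℝ) < 1 / (b : ℝ) ^ (r ^ 2) := by positivity
    linarith
  have l1 := tendsto_pow_atTop_nhds_zero_of_lt_one (by positivity) hδ1
  have l2 := (lim0 r (M * r ^ 2) (by positivity) (1 / 2) (by norm_num) (by norm_num)).const_mul 2
  have l3 := ((lim0 r (r ^ 4) (by positivity) _ hq2 hq3).const_mul ((r : ℝ) + 1)).const_mul 2
  have l4 := tendsto_pow_atTop_nhds_zero_of_lt_one hq hq1
  have l5 := ((l1.add l2).add l3).add l4
  simp only [mul_zero, add_zero] at l5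
  refine squeeze_zero' (Eventually.of_forall fun k => by positivity) ?_ l5
  filter_upwards [eventually_ge_atTop (M * r ^ 2), eventually_ge_atTop 1] with k hk hk1
  rw [div_le_iff₀ (by positivity)]
  have c1 := case1 (k := k) hb M δ hδ hM
  have c2 := case2 (k := k) hb M r hr hk hM0 hr1
  have c3 := case3 (k := k) hb r hr hk1
  have c4 := single (k := k) hb univ (fun _ => ⟨b - 1, by omega⟩)
  rw [card_univ, Fintype.card_fin] at c4
  set S1 := univ.filter (fun f : Fin k → Fin b => ∃ A B, A ⊆ range k ∧ B ⊆ range k ∧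
      M * A.card ≤ k ∧ M * B.card ≤ k ∧ Dec f A B)
  set S2 := univ.filter (fun f : Fin k → Fin b => ∃ A B, A ⊆ range k ∧ B ⊆ range k ∧
      k < M * A.card ∧ r ≤ B.card ∧ Dec f A B)
  set S3 := univ.filter (fun f : Fin k → Fin b => ∃ A B, B ⊆ range k ∧
      2 ≤ B.card ∧ B.card ≤ r ∧ Dec f A B)
  set S4 := univ.filter (fun f : Fin k → Fin b => ∀ i ∈ (univ : Finset (Fin k)),
    f i ≠ ⟨b - 1, by omega⟩)
  have h1 : univ.filter (fun f : Fin k → Fin b => Red f ∨ ∀ i, (f i : ℕ) ≠ b - 1) ⊆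
      S1 ∪ S2 ∪ S3 ∪ S4 := by
    intro f hf
    simp only [mem_union, S1, S2, S3, S4, mem_filter, mem_univ, true_and] at hf ⊢
    rcases hf with ⟨A, B, hA, hB, h⟩ | h
    · left
      have hA' := h.sub hB
      have hB' := h.symm.sub hA
      by_cases h2 : B.card ≤ r
      · exact Or.inr ⟨A, B, hB', hB, h2, h⟩
      by_cases h3 : A.card ≤ r
      · exact Or.inr ⟨B, A, hA', hA, h3, h.symm⟩
      left
      by_cases h4 : M * A.card ≤ k
      · by_cases h5 : M * B.card ≤ k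
        · exact Or.inl ⟨A, B, hA', hB', h4, h5, h⟩
        · exact Or.inr ⟨B, A, hB', hA', by omega, by omega, h.symm⟩
      · exact Or.inr ⟨A, B, hA', hB', by omega, by omega, h⟩
    · exact Or.inr (fun i _ e => h i (by rw [e]))
  have h2 : bad b k ≤ S1.card + S2.card + S3.card + S4.card := by
    have h3 := card_le_card h1
    have h4 := card_union_le (S1 ∪ S2 ∪ S3) S4
    have h5 := card_union_le (S1 ∪ S2) S3
    have h6 := card_union_le S1 S2
    unfold bad
    omega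
  have h3 : (bad b k : ℝ) ≤ S1.card + S2.card + S3.card + S4.card := by exact_mod_cast h2
  have h4 : (0 : ℝ) ≤ S2.card := by positivity
  have h5 : (0 : ℝ) ≤ S3.card := by positivity
  nlinarith

lemma dig_zero {b : ℕ} (hb : 2 ≤ b) : ∀ x : ℕ, (∀ i, x / b ^ i % b = 0) → x = 0 := by
  intro x
  induction x using Nat.strong_induction_on with
  | _ x ih =>
    intro h
    by_contra hx
    have h1 : x / b = 0 := ih _ (Nat.div_lt_self (by omega) (by omega)) (fun i => by
      rw [Nat.div_div_eq_div_mul, ← pow_succ']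
      exact h _)
    have h2 := h 0
    have h3 := Nat.div_add_mod x b
    simp only [pow_zero, Nat.div_one] at h2
    rw [h1, h2] at h3
    omega

def supp (b a : ℕ) : Finset ℕ := (range a).filter (fun i => a / b ^ i % b ≠ 0)

lemma mem_supp {b : ℕ} (hb : 2 ≤ b) (a i : ℕ) : i ∈ supp b a ↔ a / b ^ i % b ≠ 0 := by
  simp only [supp, mem_filter, mem_range, and_iff_right_iff_imp]
  intro h
  by_contra h1
  have h2 : i < b ^ i := Nat.lt_pow_self (by omega)
  rw [Nat.div_eq_of_lt (by omega)] at h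
  simp at h

lemma unit_of {b : ℕ} (hb : 2 ≤ b) (a : ℕ) (h0 : a / b ^ 0 % b ≠ 0) (h1 : (supp b a).card ≤ 1)
    (h2 : ∃ i, b - 1 ≤ a / b ^ i % b) : a = b - 1 := by
  have h3 : ∀ i, i ≠ 0 → a / b ^ i % b = 0 := by
    intro i hi
    by_contra h
    exact hi (card_le_one.mp h1 i ((mem_supp hb a i).mpr h) 0 ((mem_supp hb a 0).mpr h0))
  have h4 : a / b = 0 := dig_zero hb _ (fun i => by
    rw [Nat.div_div_eq_div_mul, ← pow_succ']
    exact h3 _ (by omega))
  have h5 : a < b := by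
    rcases (Nat.div_eq_zero_iff).mp h4 with h | h
    · omega
    · exact h
  obtain ⟨i, hi⟩ := h2
  by_cases h6 : i = 0
  · rw [h6, pow_zero, Nat.div_one, Nat.mod_eq_of_lt h5] at hi
    omega
  · rw [h3 i h6] at hi
    omega

def Pr (b n : ℕ) : Prop := n ≠ b - 1 ∧ ∀ a c : ℕ,
  (∀ m : ℕ, n / b ^ m % b =
    (Finset.range (m + 1)).sup (fun i => min (a / b ^ i % b) (c / b ^ (m - i) % b))) →
  a = b - 1 ∨ c = b - 1

lemma pr_last {b n : ℕ} (hb : 2 ≤ b) (hn : b ^ 2 ≤ n) (h : Pr b n) : n % b ≠ 0 := by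
  intro h0
  have hd : ∀ i, (b - 1) * b / b ^ i % b = if i = 1 then b - 1 else 0 := by
    intro i
    rcases i with _ | i
    · simp
    · rw [pow_succ', ← Nat.div_div_eq_div_mul, Nat.mul_div_cancel _ (by omega)]
      rcases i with _ | i
      · simp only [pow_zero, Nat.div_one, zero_add, if_true]
        exact Nat.mod_eq_of_lt (by omega)
      · rw [pow_succ', ← Nat.div_div_eq_div_mul, Nat.div_eq_of_lt (by omega : b - 1 < b)]
        simp
  rcases h.2 ((b - 1) * b) (n / b) (fun m => by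
    simp only [hd]
    rcases m with _ | m
    · simp [h0]
    · apply le_antisymm
      · refine le_trans ?_ (Finset.le_sup (f := fun i => min (if i = 1 then b - 1 else 0)
          (n / b / b ^ (m + 1 - i) % b)) (mem_range.mpr (by omega : 1 < m + 1 + 1)))
        simp only [if_true, Nat.add_sub_cancel, Nat.div_div_eq_div_mul, ← pow_succ']
        have := Nat.mod_lt (n / b ^ (m + 1)) (by omega : 0 < b)
        omega
      · apply Finset.sup_le
        intro i _
        split_ifs with hi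
        · rw [hi, Nat.add_sub_cancel, Nat.div_div_eq_div_mul, ← pow_succ']
          exact min_le_right _ _
        · simp) with h1 | h1
  · have : (b - 1) * 2 ≤ (b - 1) * b := Nat.mul_le_mul_left _ hb
    omega
  · have : b ≤ n / b := (Nat.le_div_iff_mul_le (by omega)).mpr (by rwa [← sq])
    omega

lemma pr_of {b k n : ℕ} (hb : 2 ≤ b) (hn : n < b ^ k) (hn' : b ≤ n) (h0 : n % b ≠ 0)
    (h : ¬ (Red (finFunctionFinEquiv.symm (⟨n, hn⟩ : Fin (b ^ k))) ∨
      ∀ i, (finFunctionFinEquiv.symm (⟨n, hn⟩ : Fin (b ^ k)) i : ℕ) ≠ b - 1)) : Pr b n := by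
  refine ⟨by omega, fun a c hac => ?_⟩
  rw [not_or] at h
  obtain ⟨h1, h2⟩ := h
  push Not at h2
  obtain ⟨i, hi⟩ := h2
  rw [finFunctionFinEquiv_symm_apply_val] at hi
  simp only at hi
  have h3 := hac 0
  simp only [zero_add, range_one, sup_singleton, Nat.sub_self] at h3
  rw [pow_zero, Nat.div_one] at h3
  have h4 : ∃ j : ℕ, b - 1 ≤ min (a / b ^ j % b) (c / b ^ ((i : ℕ) - j) % b) := by
    have h5 := hac i
    obtain ⟨j, -, hj⟩ := exists_mem_eq_sup (range ((i : ℕ) + 1)) (by simp)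
      (fun j => min (a / b ^ j % b) (c / b ^ ((i : ℕ) - j) % b))
    exact ⟨j, by rw [← hj, ← h5, hi]⟩
  obtain ⟨j, hj⟩ := h4
  by_cases hA : (supp b a).card ≤ 1
  · exact Or.inl (unit_of hb a (by rw [pow_zero]; omega) hA ⟨j, by omega⟩)
  by_cases hC : (supp b c).card ≤ 1
  · exact Or.inr (unit_of hb c (by rw [pow_zero]; omega) hC ⟨i - j, by omega⟩)
  exfalso
  refine h1 ⟨supp b a, supp b c, by omega, by omega, fun m => ?_⟩
  have h6 : N (finFunctionFinEquiv.symm (⟨n, hn⟩ : Fin (b ^ k))) m ↔ n / b ^ m % b ≠ 0 := by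
    constructor
    · rintro ⟨j, rfl, hj⟩
      rwa [finFunctionFinEquiv_symm_apply_val] at hj
    · intro h7
      have h8 : m < k := by
        by_contra h9
        have : b ^ k ≤ b ^ m := Nat.pow_le_pow_right (by omega) (by omega)
        rw [Nat.div_eq_of_lt (by omega)] at h7
        simp at h7
      exact ⟨⟨m, h8⟩, rfl, by rwa [finFunctionFinEquiv_symm_apply_val]⟩
  rw [h6, hac m]
  simp only [mem_supp hb]
  constructor
  · intro h7
    obtain ⟨j, hj1, hj⟩ := exists_mem_eq_sup (range (m + 1)) (by simp)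
      (fun j => min (a / b ^ j % b) (c / b ^ (m - j) % b))
    rw [hj] at h7
    rw [mem_range] at hj1
    exact ⟨j, by omega, m - j, by omega, by omega⟩
  · rintro ⟨x, hx, y, hy, e⟩
    have h8 := Finset.le_sup (f := fun j => min (a / b ^ j % b) (c / b ^ (m - j) % b))
      (mem_range.mpr (by omega : x < m + 1))
    have h9 : m - x = y := by omega
    simp only [h9] at h8
    omega

lemma cm {b : ℕ} (hb : 0 < b) (m : ℕ) :
    ((range (b * m)).filter (fun n => n % b ≠ 0)).card + m = b * m := by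
  have h1 := card_filter_add_card_filter_not (s := range (b * m)) (fun n => n % b ≠ 0)
  have h2 : (range (b * m)).filter (fun n => ¬ n % b ≠ 0) = (range m).image (fun j => b * j) := by
    ext n
    simp only [mem_filter, mem_range, mem_image, not_not]
    constructor
    · rintro ⟨h3, h4⟩
      obtain ⟨j, rfl⟩ := Nat.dvd_of_mod_eq_zero h4
      exact ⟨j, Nat.lt_of_mul_lt_mul_left h3, rfl⟩
    · rintro ⟨j, h3, rfl⟩
      exact ⟨Nat.mul_lt_mul_of_pos_left h3 hb, by simp⟩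
  rw [h2, card_image_of_injective _ (mul_right_injective₀ hb.ne'), card_range, card_range] at h1
  exact h1

lemma good_card {b : ℕ} (hb : 2 ≤ b) (j : ℕ) :
    (((Ico (b ^ (j + 1)) (b ^ (j + 2))).filter (fun n => n % b ≠ 0)).card : ℝ) =
      ((b : ℝ) - 1) ^ 2 * (b : ℝ) ^ j := by
  have h1 := cm (by omega : 0 < b) (b ^ j)
  have h2 := cm (by omega : 0 < b) (b ^ (j + 1))
  rw [← pow_succ'] at h1 h2
  have h3 : (range (b ^ (j + 1 + 1))).filter (fun n => n % b ≠ 0) =
      (range (b ^ (j + 1))).filter (fun n => n % b ≠ 0) ∪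
      (Ico (b ^ (j + 1)) (b ^ (j + 2))).filter (fun n => n % b ≠ 0) := by
    have : b ^ (j + 1) ≤ b ^ (j + 2) := Nat.pow_le_pow_right (by omega) (by omega)
    ext n
    simp only [mem_filter, mem_range, mem_union, mem_Ico, show j + 1 + 1 = j + 2 from rfl]
    omega
  rw [h3, card_union_of_disjoint (by
    rw [disjoint_left]
    intro n hn hn'
    simp only [mem_filter, mem_range, mem_Ico] at hn hn'
    omega)] at h2
  have h4 := congrArg (Nat.cast : ℕ → ℝ) h1
  have h5 := congrArg (Nat.cast : ℕ → ℝ) h2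
  push_cast at h4 h5
  linear_combination h5 - h4

open Classical in
theorem main (b : ℕ) (hb : 2 ≤ b) : Asymptotics.IsEquivalent atTop
    (fun k : ℕ => (({n : ℕ | b ^ (k - 1) ≤ n ∧ n < b ^ k ∧ Pr b n} : Set ℕ).ncard : ℝ))
    (fun k : ℕ => ((b : ℝ) - 1) ^ 2 * (b : ℝ) ^ ((k : ℤ) - 2)) := by
  have hb' : (2 : ℝ) ≤ b := by exact_mod_cast hb
  rw [Asymptotics.IsEquivalent, Asymptotics.isLittleO_iff]
  intro c hc
  have hpos : 0 < c / (b : ℝ) ^ 2 := by positivity
  filter_upwards [(bad_lim hb).eventually (gt_mem_nhds hpos), eventually_ge_atTop 3] with k hk hk3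
  obtain ⟨j, rfl⟩ : ∃ j, k = j + 2 := ⟨k - 2, by omega⟩
  have e1 : (((j + 2 : ℕ) : ℤ) - 2) = (j : ℤ) := by push_cast; ring
  simp only [Pi.sub_apply, e1, zpow_natCast, show j + 2 - 1 = j + 1 from rfl]
  set G := (Ico (b ^ (j + 1)) (b ^ (j + 2))).filter (fun n => n % b ≠ 0) with hG
  have h1 : {n : ℕ | b ^ (j + 1) ≤ n ∧ n < b ^ (j + 2) ∧ Pr b n} = ↑(G.filter (Pr b)) := by
    ext n
    simp only [hG, Set.mem_setOf_eq, coe_filter, mem_filter, mem_Ico]
    constructor
    · rintro ⟨h2, h3, h4⟩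
      exact ⟨⟨⟨h2, h3⟩, pr_last hb (le_trans (Nat.pow_le_pow_right (by omega) (by omega)) h2) h4⟩,
        h4⟩
    · rintro ⟨⟨⟨h2, h3⟩, -⟩, h4⟩
      exact ⟨h2, h3, h4⟩
  have h2 := card_filter_add_card_filter_not (s := G) (Pr b)
  have h3 : (G.filter (fun n => ¬ Pr b n)).card ≤ bad b (j + 2) := by
    unfold bad
    refine le_trans (card_le_card (t := (univ.filter (fun f : Fin (j + 2) → Fin b =>
      Red f ∨ ∀ i, (f i : ℕ) ≠ b - 1)).image (fun f => (finFunctionFinEquiv f : ℕ))) ?_)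
      card_image_le
    intro n hn
    simp only [hG, mem_filter, mem_Ico] at hn
    obtain ⟨⟨⟨h4, h5⟩, h6⟩, h7⟩ := hn
    refine mem_image.mpr ⟨finFunctionFinEquiv.symm ⟨n, h5⟩, mem_filter.mpr ⟨mem_univ _, ?_⟩,
      by simp⟩
    by_contra h8
    exact h7 (pr_of hb h5 (le_trans (Nat.le_self_pow (by omega) b) h4) h6 h8)
  have h4 := good_card hb j
  rw [h1, Set.ncard_coe_finset, ← h4, ← hG, ← h2]
  have h5 : ((G.filter (fun n => ¬ Pr b n)).card : ℝ) ≤ bad b (j + 2) := by exact_mod_cast h3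
  rw [h2, h4]
  rw [div_lt_div_iff₀ (by positivity) (by positivity)] at hk
  have h6 : ((G.filter (Pr b)).card : ℝ) + (G.filter (fun n => ¬ Pr b n)).card =
      ((b : ℝ) - 1) ^ 2 * (b : ℝ) ^ j := by rw [← h4]; exact_mod_cast h2
  have h7 : (bad b (j + 2) : ℝ) < c * (b : ℝ) ^ j := by
    apply lt_of_mul_lt_mul_right _ (by positivity : (0 : ℝ) ≤ (b : ℝ) ^ 2)
    rw [mul_assoc, ← pow_add]
    exact hk
  have h8 : (1 : ℝ) ≤ ((b : ℝ) - 1) ^ 2 := one_le_pow₀ (by linarith)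
  have h9 : c * (b : ℝ) ^ j ≤ c * (((b : ℝ) - 1) ^ 2 * (b : ℝ) ^ j) := by
    gcongr
    exact le_mul_of_one_le_left (by positivity) h8
  rw [Real.norm_eq_abs, Real.norm_eq_abs, abs_of_nonneg (by positivity : (0 : ℝ) ≤
    ((b : ℝ) - 1) ^ 2 * (b : ℝ) ^ j), abs_le]
  have h10 : (0 : ℝ) ≤ (G.filter (fun n => ¬ Pr b n)).card := by positivity
  constructor <;> linarith

end Pool.Agent.H.MP_1d41ea_nt
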